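import Pool.Agent.Zk41.P4.MT
import Pool.Agent.Zk41.P4.Cub

/-!
# Bounded gaps between the integers `x` for which `x³ + k` has at most four prime factors

Let `k` be an integer which is not a cube. Richert proved in 1969 that `x³ + k` has at most four prime factors for
infinitely many `x`; for cubic polynomials four is still the smallest number known. Here: for every `m` there are, in all
windows `(N, N + N ^ 0.802]`, `m` such integers `x` at a BOUNDED distance from each other. More precisely, any set of `K` shifts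
contains `m` shifts which do this at the same time, and at all the terms `n` of a progression of any prescribed length with
difference at most a power of `log N`. The same holds with `r` prime factors in windows of length `N ^ θ` for all `θ > 3 / Λ_r`, where
`Λ_r` is Richert's constant (`Λ_4 = 3.745…`, `Λ_5 = 4.742…`, `Λ_6 = 5.738…`).

Proof. The sieve of Maynard and Tao is combined with the weighted linear sieve with Richert's weights (`Agent/R498/MT`,
starting files, written there for quadratic polynomials), in a form for polynomials of any degree (`Agent/Zk41/P4/MT`). Its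
hypothesis on the densities, Mertens' theorem with error `o(1)` in intervals `[N^a, N^b]` for the number of the roots of `x³ + k` modulo
`p`, is derived from the prime ideal theorem by partial summation (`Agent/Zk41/P4/Abel`, `Mer`); the squares of primes are
removed by Hensel's lemma (`Sq`). The progressions come from Szemerédi's theorem for sifted sets (`Agent/Y677/RSZ`).
-/

set_option autoImplicit false

namespace Pool.Agent.Results.MP_4d57ea_nt.FourPrimeFactors

open Filter

/-- Richert's constant `Λ_r = r + 1 - log (4 / (1 + 3 ^ (-r))) / log 3`. -/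
noncomputable def Lambda (r : ℕ) : ℝ := r + 1 - Real.log (4 / (1 + 3 ^ (-(r : ℝ)))) / Real.log 3

/-- `x³ + k` is, up to the sign, a product of at most `r` primes (counted with multiplicity), all of them at least `z`. -/
def AlmostPrime (k : ℤ) (r : ℕ) (z : ℝ) (x : ℕ) : Prop :=
  (x : ℤ) ^ 3 + k ≠ 0 ∧ ((x : ℤ) ^ 3 + k).natAbs.primeFactorsList.length ≤ r ∧
    ∀ p : ℕ, p.Prime → (p : ℤ) ∣ (x : ℤ) ^ 3 + k → z ≤ p

/-- four prime factors: the exponent `0.802` -/
theorem four : 3 < (0.802 : ℝ) * Lambda 4 := by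
  have h1 := Pool.Agent.K3h19.RV.lam_four
  unfold Lambda
  rw [Pool.Agent.Zk41.P4.lam_eq]
  norm_num at h1 ⊢
  linarith

/-- **Theorem.** Let `k` be an integer that is not a cube, `θ ≤ 1` and `3 < θ Λ_r` (for instance `r = 4` and `0.802 ≤ θ ≤ 1`).
For every `m` there is `K` such that for every set `S` of at least `K` nonnegative integers and every `l` there is an exponent `B` such
that, for all large `N`, there are a set `T ⊆ S` of `m` elements and a progression `n, n + d, …, n + (l - 1) d` in
`(N, N + N ^ θ]` with `1 ≤ d ≤ (log N) ^ B` such that, for all the terms `n + j d` and all `h ∈ T`, the number `(n + j d + h)³ + k` has at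
most `r` prime factors, all of them at least `N ^ ((3 / Λ_r + θ) / 8)`. -/
theorem result (k : ℤ) (hk : ¬ ∃ a : ℤ, a ^ 3 = k) (r : ℕ) (θ : ℝ) (hθ : θ ≤ 1) (hr : 3 < θ * Lambda r) (m : ℕ) :
    ∃ K : ℕ, ∀ S : Finset ℕ, K ≤ S.card → ∀ l : ℕ, ∃ B : ℕ, ∀ᶠ N : ℕ in atTop,
      ∃ T ⊆ S, T.card = m ∧ ∃ n d : ℕ, 1 ≤ d ∧ (d : ℝ) ≤ Real.log N ^ B ∧
        ∀ j < l, N < n + j * d ∧ ((n + j * d : ℕ) : ℝ) ≤ N + (N : ℝ) ^ θ ∧
          ∀ h ∈ T, AlmostPrime k r ((N : ℝ) ^ ((3 / Lambda r + θ) / 8)) (n + j * d + h) := by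
  unfold Lambda at hr ⊢
  rw [Pool.Agent.Zk41.P4.lam_eq] at hr ⊢
  have hr1 : 1 ≤ r := by
    by_contra h
    have h0 : r = 0 := by omega
    subst h0
    have h3 : 0 < Real.log 3 := Real.log_pos (by norm_num)
    have e : Pool.Agent.K3h19.RV.Lam 0 = 1 - Real.log 2 / Real.log 3 := by
      unfold Pool.Agent.K3h19.RV.Lam
      have : ((3 : ℝ) ^ 0 + 1) / 4 = 2⁻¹ := by norm_num
      rw [this, Real.log_inv]
      ring
    rw [e] at hr
    have h4 : 0 ≤ Real.log 2 / Real.log 3 := div_nonneg (Real.log_nonneg (by norm_num)) h3.le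
    have h5 : Real.log 2 / Real.log 3 ≤ 1 := by
      rw [div_le_one h3]
      exact Real.log_le_log (by norm_num) (by norm_num)
    nlinarith
  obtain ⟨K, hK⟩ := Pool.Agent.Zk41.P4.clusters (Pool.Agent.Zk41.P4.PC k) (Pool.Agent.Zk41.P4.PC_monic k)
    (Pool.Agent.Zk41.P4.PC_irr k hk) (by rw [Pool.Agent.Zk41.P4.PC_deg]; norm_num) (Pool.Agent.Zk41.P4.PC_rt k) r hr1 θ hθ
    (by rw [Pool.Agent.Zk41.P4.PC_deg]; exact_mod_cast hr) m
  rw [Pool.Agent.Zk41.P4.PC_deg] at hK
  refine ⟨K, fun S hS l => ?_⟩
  obtain ⟨B, hB⟩ := hK S hS (l + 2) (by omega)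
  refine ⟨B, ?_⟩
  filter_upwards [hB] with N hN
  obtain ⟨T, hT, hTc, n, d, h1, h2, h3, h4, h5⟩ := hN
  refine ⟨T, hT, hTc, n, d, h3, h4, fun j hj => ⟨by omega, ?_, fun h hh => ?_⟩⟩
  · refine le_trans ?_ h2
    have : n + j * d ≤ n + (l + 2 - 1) * d := by
      have := Nat.mul_le_mul_right d (show j ≤ l + 2 - 1 by omega)
      omega
    exact_mod_cast this
  · obtain ⟨h6, h7⟩ := h5 j (by omega) h hh
    simp only [Pool.Agent.Zk41.P4.PC_eval] at h6 h7
    refine ⟨?_, h6, fun p hp hpd => ?_⟩
    · intro h0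
      apply hk
      exact ⟨-((n + j * d + h : ℕ) : ℤ), by
        rw [Odd.neg_pow (by decide)]
        linarith⟩
    · exact_mod_cast h7 p hp (Int.natCast_dvd.1 hpd)

end Pool.Agent.Results.MP_4d57ea_nt.FourPrimeFactors
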