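import Pool.Agent.Zk38.Cub.C
import Pool.Agent.Zk38.Cub.L

/-!
# Primes `F(m) + k` for ALL integers `k` near powers of almost every number

Let `v_j ≥ 1` be reals with `∑ v_j ^ (-t) < ∞` for some `t` (for instance `v_j = j`, `√j` or `3 ^ j`). For almost every
`α > 1` the following holds for every integer polynomial `F` of degree at least `2` and all but finitely many `j`: for ALL
integers `k` in the two windows of length `2 v_j ^ A` around `α ^ (v_j)` and `-α ^ (v_j)` for which `F + k` has no fixed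
prime divisor the asymptotic formula of Bateman and Horn for the primes `F(m) + k` holds in all short windows. For
`F = x³` there is no fixed prime divisor and each such `k` has a prime `m³ + k` at most `|k| ^ (2/3)` times a power of
`log |k|`.
-/

set_option autoImplicit false

open Finset MeasureTheory
open Polynomial (X)
open scoped Polynomial

namespace Pool.Agent.Results.MP_4d57ea_nt.NearPowersOfNumbers

/-- the number of residues `a` modulo `p` such that `p` divides `F(a) + k` -/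
def rho (F : ℤ[X]) (k : ℤ) (p : ℕ) : ℕ := #((range p).filter (fun a : ℕ => (p : ℤ) ∣ F.eval (a : ℤ) + k))

/-- the product of `(p - rho(p)) / (p - 1)` over the primes `p ≤ z` -/
noncomputable def S (F : ℤ[X]) (k : ℤ) (z : ℕ) : ℝ :=
  ∏ p ∈ (range (z + 1)).filter Nat.Prime, ((p : ℝ) - rho F k p) / ((p : ℝ) - 1)

/-- the number of integers `m` with `a < m ≤ b` such that `F(m) + k` is a prime -/
noncomputable def P (F : ℤ[X]) (k a b : ℤ) : ℕ := #((Ioc a b).filter (fun m : ℤ => Nat.Prime (F.eval m + k).toNat))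

/-- the sum of `1 / log (F(m) + k)` over the integers `m` with `a < m ≤ b` -/
noncomputable def M (F : ℤ[X]) (k a b : ℤ) : ℝ := ∑ m ∈ Ioc a b, 1 / Real.log ((F.eval m + k : ℤ) : ℝ)

/-- The asymptotic formula for the primes `F(m) + k` in all windows `a < m ≤ b` on which
`2 ≤ F(m) + k ≤ (b - a) |k| ^ (1 - 1/d) (log |k|) ^ C`, `d` the degree of `F`: with relative error `ε` for
`b - a ≥ (log |k|) ^ B` and with relative error `(log |k|) ^ (-U)` for `b - a ≥ exp (B (log log |k|)²)`. The local factors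
are those of the primes up to `z`, for any `z` between `(log |k|) ^ B` and `|k| ^ (1/3)`. -/
def Formula (F : ℤ[X]) (U C : ℕ) (ε B : ℝ) (k : ℤ) : Prop :=
  ∀ z : ℕ, Real.log |(k : ℝ)| ^ B ≤ z → (z : ℝ) ^ 3 ≤ |(k : ℝ)| → 0 < S F k z ∧
    ∀ a b : ℤ, a < b → (∀ m ∈ Ioc a b, 2 ≤ F.eval m + k ∧ ((F.eval m + k : ℤ) : ℝ) ≤
        ((b : ℝ) - a) * |(k : ℝ)| ^ (1 - 1 / (F.natDegree : ℝ)) * Real.log |(k : ℝ)| ^ C) →
      (Real.log |(k : ℝ)| ^ B ≤ (b : ℝ) - a →
        |(P F k a b : ℝ) - S F k z * M F k a b| ≤ ε * (S F k z * M F k a b)) ∧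
      (Real.exp (B * Real.log (Real.log |(k : ℝ)|) ^ 2) ≤ (b : ℝ) - a →
        |(P F k a b : ℝ) - S F k z * M F k a b| ≤ (S F k z * M F k a b) / Real.log |(k : ℝ)| ^ U)

/-- **Theorem.** Let `v_j ≥ 1` be reals such that the sum of `v_j ^ (-t)` converges for some `t`. There is a null set `Z`
of real numbers such that for all `α > 1` outside `Z` and all `A`: (1) for every integer polynomial `F` of degree at least
`2`, all `U`, `C` and `ε > 0` there are `B` and `j₀` such that for all `j ≥ j₀` the formula holds for ALL integers `k` with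
`||k| - α ^ (v_j)| ≤ v_j ^ A` for which `F + k` has no fixed prime divisor; (2) there are `B` and `j₀` such that for all
`j ≥ j₀` and ALL integers `k` with `||k| - α ^ (v_j)| ≤ v_j ^ A` there is a prime
`p = m³ + k ≤ |k| ^ (2/3) (log |k|) ^ B`. -/
theorem result (v : ℕ → ℝ) (hv : ∀ j, 1 ≤ v j) (t : ℝ) (ht : Summable fun j => (v j) ^ (-t)) :
    ∃ Z : Set ℝ, volume Z = 0 ∧ ∀ α : ℝ, 1 < α → α ∉ Z → ∀ A : ℕ,
      (∀ F : ℤ[X], 2 ≤ F.natDegree → ∀ (U C : ℕ) (ε : ℝ), 0 < ε → ∃ B j₀ : ℕ, ∀ j : ℕ, j₀ ≤ j → ∀ k : ℤ,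
        |(|k| : ℝ) - α ^ (v j)| ≤ (v j) ^ A → (∀ p : ℕ, p.Prime → ∃ m : ℤ, ¬ (p : ℤ) ∣ F.eval m + k) →
        Formula F U C ε B k) ∧
      (∃ B j₀ : ℕ, ∀ j : ℕ, j₀ ≤ j → ∀ k : ℤ, |(|k| : ℝ) - α ^ (v j)| ≤ (v j) ^ A →
        ∃ (m : ℤ) (p : ℕ), p.Prime ∧ (p : ℤ) = m ^ 3 + k ∧
          (p : ℝ) ≤ |(k : ℝ)| ^ ((2 : ℝ) / 3) * Real.log |(k : ℝ)| ^ B) := by
  obtain ⟨Z₁, hZ₁, h1⟩ := Pool.Agent.Zk38.Cub.near_powers hv ht
  obtain ⟨Z₂, hZ₂, h2⟩ := Pool.Agent.Zk38.Cub.least_near_powers hv ht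
  refine ⟨Z₁ ∪ Z₂, measure_union_null hZ₁ hZ₂, fun α hα hαZ A => ⟨fun F hF U C ε hε => ?_, ?_⟩⟩
  · exact h1 α hα (fun h => hαZ (Or.inl h)) F hF A U C ε hε
  · obtain ⟨B, j₀, h⟩ := h2 α hα (fun h => hαZ (Or.inr h)) A
    refine ⟨B, j₀, fun j hj k hk => ?_⟩
    obtain ⟨m, p, h3, h4, h5⟩ := h j hj k hk
    rw [Real.rpow_natCast] at h5
    exact ⟨m, p, h3, h4, h5⟩

end Pool.Agent.Results.MP_4d57ea_nt.NearPowersOfNumbers
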