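import Pool.Agent.Zk41.P4.Fin
import Pool.Agent.Zk41.P4.Cub

/-!
# Szemerédi's theorem for the integers `x` for which `x³ + k` has at most four prime factors

Let `k` be an integer which is not a cube. Richert proved in 1969 that `x³ + k` has at most four prime factors for
`≫ X / log X` of the integers `x ≤ X`; for cubic polynomials four is still the smallest number known. Let `R` be the set of these
integers in an interval of length `H ≥ N ^ 0.802` inside `[-N, N]` (with all prime factors at least `N ^ δ`). Here: `R` has at least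
`c H / log H` elements, and EVERY subset of `R` with a positive proportion of its elements contains progressions of any prescribed
length, with differences at most a power of `log N`. The same holds for every set of at least `κ H / log H` integers `x` of the interval
for which `x³ + k` has no prime factor below a power of `N`, for instance for sets of `x` for which `|x³ + k|` is prime. The theorem
holds with `r` prime factors and intervals of length `N ^ θ` for all `θ > 3 / Λ_r`, where `Λ_r` is Richert's constant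
(`Λ_4 = 3.745…`, `Λ_5 = 4.742…`, `Λ_6 = 5.738…`).

Proof. Lower bound for `R`: the weighted linear sieve with Richert's weights (`Agent/Y882/KW`, `Agent/K3h19/RV`, starting files), for
a polynomial of any degree (`Agent/Zk41/P4/Low`); Mertens' theorem with error `o(1)` in intervals `[N^a, N^b]` for the number of the
roots of `x³ + k` modulo `p` is derived from the prime ideal theorem by partial summation (`Abel`, `Mer`), and the squares of primes
are removed by Hensel's lemma (`Sq`). Progressions: `Zk41.PY.pol`, Szemerédi's theorem relative to the integers at which a polynomial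
has no small prime factors, uniformly in the coefficients, with differences at most a power of `log H`.
-/

set_option autoImplicit false

open Finset Polynomial

namespace Pool.Agent.Results.MP_4d57ea_nt.RichertProgressions

/-- Richert's constant `Λ_r = r + 1 - log (4 / (1 + 3 ^ (-r))) / log 3`. -/
noncomputable def Lambda (r : ℕ) : ℝ := r + 1 - Real.log (4 / (1 + 3 ^ (-(r : ℝ)))) / Real.log 3

/-- `S` contains a progression `a, a + d, …, a + (l - 1) d` with difference `1 ≤ d ≤ D`. -/
def HasAP (l : ℕ) (D : ℝ) (S : Finset ℤ) : Prop :=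
  ∃ (a : ℤ) (d : ℕ), 1 ≤ d ∧ (d : ℝ) ≤ D ∧ ∀ i < l, a + i * d ∈ S

/-- no prime below `z` divides `x³ + k` -/
def Rough (k : ℤ) (z : ℝ) (x : ℤ) : Prop := ∀ p : ℕ, p.Prime → (p : ℤ) ∣ x ^ 3 + k → z ≤ p

open Classical in
/-- `R`: the integers `x` in `(Y, Y + H]` for which `x³ + k` has at most `r` prime factors (counted with multiplicity), all of
them at least `z` -/
noncomputable def R (k : ℤ) (r : ℕ) (z : ℝ) (Y : ℤ) (H : ℕ) : Finset ℤ :=
  (Ioc Y (Y + H)).filter (fun x : ℤ => (x ^ 3 + k).natAbs.primeFactorsList.length ≤ r ∧ Rough k z x)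

/-- four prime factors: the exponent `0.802` -/
theorem four : 3 < (0.802 : ℝ) * Lambda 4 := by
  have h1 := Pool.Agent.K3h19.RV.lam_four
  unfold Lambda
  rw [Pool.Agent.Zk41.P4.lam_eq]
  norm_num at h1 ⊢
  linarith

open Pool.Agent.Zk41.P4 (PC PC_eval PC_monic PC_deg PC_irr PC_rt rich_int lam_eq)

/-- **Theorem.** Let `k` be an integer that is not a cube, `θ ≤ 1` and `3 < θ Λ_r` (for instance `r = 4` and `0.802 ≤ θ ≤ 1`).
There are `δ, c > 0` such that for all `l` and `κ, ρ > 0` there are `B` and `N₀` with the following property. Let `N ≥ N₀`, and let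
`(Y, Y + H]` be an interval of integers contained in `[-N, N]` with `H ≥ N ^ θ`. The set `R` of the integers `x` of the interval for which
`x³ + k` has at most `r` prime factors, all at least `N ^ δ`, has at least `c H / log H` elements, and every set of at least
`κ H / log H` integers `x` of the interval for which `x³ + k` has no prime factor below `N ^ ρ` contains a progression of length `l` with
difference at most `(log N) ^ B`; in particular every subset of `R` with at least `κ |R|` elements does. -/
theorem result (k : ℤ) (hk : ¬ ∃ a : ℤ, a ^ 3 = k) (r : ℕ) (θ : ℝ) (hθ : θ ≤ 1) (hr : 3 < θ * Lambda r) :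
    ∃ δ c : ℝ, 0 < δ ∧ 0 < c ∧ ∀ (l : ℕ) (κ ρ : ℝ), 0 < κ → 0 < ρ → ∃ B N₀ : ℕ, ∀ N : ℕ, N₀ ≤ N →
      ∀ (Y : ℤ) (H : ℕ), -(N : ℤ) ≤ Y → Y + H ≤ N → (N : ℝ) ^ θ ≤ H →
        c * (H / Real.log H) ≤ (R k r ((N : ℝ) ^ δ) Y H).card ∧
        (∀ S ⊆ R k r ((N : ℝ) ^ δ) Y H, κ * (R k r ((N : ℝ) ^ δ) Y H).card ≤ S.card → HasAP l (Real.log N ^ B) S) ∧
        ∀ S ⊆ Ioc Y (Y + H), (∀ x ∈ S, Rough k ((N : ℝ) ^ ρ) x) → κ * (H / Real.log H) ≤ S.card →
          HasAP l (Real.log N ^ B) S := by
  classical
  unfold Lambda at hr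
  rw [lam_eq] at hr
  obtain ⟨δ, c, hδ, hc, h⟩ := rich_int (PC k) (PC_monic k) (PC_irr k hk) (by rw [PC_deg]; norm_num) (PC_rt k) r θ hθ
    (by rw [PC_deg]; exact_mod_cast hr)
  refine ⟨δ, c, hδ, hc, fun l κ ρ hκ hρ => ?_⟩
  obtain ⟨B₁, N₁, h1⟩ := h l (κ * c) δ (by positivity) hδ
  obtain ⟨B₂, N₂, h2⟩ := h l κ ρ hκ hρ
  have hlog : ∀ᶠ N : ℕ in Filter.atTop, 1 ≤ Real.log (N : ℝ) :=
    (Real.tendsto_log_atTop.comp tendsto_natCast_atTop_atTop).eventually_ge_atTop 1
  obtain ⟨N₃, h3⟩ := Filter.eventually_atTop.1 hlog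
  refine ⟨B₁ + B₂, N₁ + N₂ + N₃, fun N hN Y H hY1 hY2 hH => ?_⟩
  obtain ⟨g1, g2⟩ := h1 N (by omega) Y H hY1 hY2 hH
  obtain ⟨-, g4⟩ := h2 N (by omega) Y H hY1 hY2 hH
  have hl1 := h3 N (by omega)
  have e : (Ioc Y (Y + H)).filter (fun x : ℤ => ((PC k).eval x).natAbs.primeFactorsList.length ≤ r ∧
      ∀ p : ℕ, p.Prime → (p : ℤ) ∣ (PC k).eval x → (N : ℝ) ^ δ ≤ p) = R k r ((N : ℝ) ^ δ) Y H := by
    unfold R Rough
    simp only [PC_eval]
  rw [e] at g1
  refine ⟨g1, fun S hS hSc => ?_, fun S hS hSr hSc => ?_⟩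
  · obtain ⟨a, d, hd1, hd2, hAP⟩ := g2 S (fun x hx => by
        have := hS hx
        unfold R at this
        exact (mem_filter.1 this).1)
      (fun x hx p hp hpd => by
        have h4 := hS hx
        unfold R at h4
        rw [PC_eval] at hpd
        exact (mem_filter.1 h4).2.2 p hp hpd)
      (by
        calc κ * c * (H / Real.log H) = κ * (c * (H / Real.log H)) := by ring
          _ ≤ κ * (R k r ((N : ℝ) ^ δ) Y H).card := mul_le_mul_of_nonneg_left g1 hκ.le
          _ ≤ S.card := hSc)
    exact ⟨a, d, hd1, hd2.trans (pow_le_pow_right₀ hl1 (by omega)), hAP⟩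
  · obtain ⟨a, d, hd1, hd2, hAP⟩ := g4 S hS (fun x hx p hp hpd => by
        rw [PC_eval] at hpd
        exact hSr x hx p hp hpd) hSc
    exact ⟨a, d, hd1, hd2.trans (pow_le_pow_right₀ hl1 (by omega)), hAP⟩

end Pool.Agent.Results.MP_4d57ea_nt.RichertProgressions
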