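import Pool.Agent.Zk38.Cub.C
import Pool.Agent.Zk38.Cub.E
import Pool.Agent.N375.AV.L2
import Pool.Agent.R482.ST.Dens
import Pool.Agent.R770.LG.Sum

/-!
# Primes `F(m) + k`: one exceptional set of `k` for all polynomials, avoided by thin sets

There is ONE set `E` of natural numbers such that the asymptotic formula of Bateman and Horn holds for the primes
`F(m) + k` in all windows of length at least `(log |k|) ^ ψ(|k|)`, for all integers `k` with `|k|` outside of `E` and
large, `F + k` without fixed prime divisor, and all integer polynomials `F` of degree at least `2`; here `ψ` is any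
function which tends to infinity. The set `E` is avoided, but for `N / (log N) ^ U` of the `m ≤ N`, by the neighbourhoods of
the values `α F(m)`, `F` a composition of additive functions (for example the sum of the prime factors), although most of
these values are very small compared with `m`; it is avoided, with probability one and with finitely many exceptions, by
random sets in which `n` occurs with probability at most `C (1 + log n) ^ c / n`, which have only powers of `log X` members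
up to `X`; and by the `n` for which `φ(n)` is near a typical point, `φ` any map from the natural numbers to a metric
space.
-/

set_option autoImplicit false

open Finset MeasureTheory Filter Topology
open Polynomial (X)
open scoped Polynomial
open Pool.Agent.N733.TG (Expanding expanding_pow)
open Pool.Agent.N375.AV (PD comp log_windows logThin_of pd_additive pd_largest pd_kempner)

namespace Pool.Agent.Results.MP_4d57ea_nt.ThinSetsOfShifts

/-- the number of residues `a` modulo `p` such that `p` divides `F(a) + k` -/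
def rho (F : ℤ[X]) (k : ℤ) (p : ℕ) : ℕ := #((range p).filter (fun a : ℕ => (p : ℤ) ∣ F.eval (a : ℤ) + k))

/-- the product of `(p - rho(p)) / (p - 1)` over the primes `p ≤ z` -/
noncomputable def S (F : ℤ[X]) (k : ℤ) (z : ℕ) : ℝ :=
  ∏ p ∈ (range (z + 1)).filter Nat.Prime, ((p : ℝ) - rho F k p) / ((p : ℝ) - 1)

/-- the number of integers `m` with `a < m ≤ b` such that `F(m) + k` is a prime -/
noncomputable def P (F : ℤ[X]) (k a b : ℤ) : ℕ := #((Ioc a b).filter (fun m : ℤ => Nat.Prime (F.eval m + k).toNat))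

/-- the sum of `1 / log (F(m) + k)` over the integers `m` with `a < m ≤ b` -/
noncomputable def M (F : ℤ[X]) (k a b : ℤ) : ℝ := ∑ m ∈ Ioc a b, 1 / Real.log ((F.eval m + k : ℤ) : ℝ)

/-- The asymptotic formula for the primes `F(m) + k` in all windows `a < m ≤ b` on which
`2 ≤ F(m) + k ≤ (b - a) |k| ^ (1 - 1/d) (log |k|) ^ C`, `d` the degree of `F`: with relative error `ε` for
`b - a ≥ (log |k|) ^ B` and with relative error `(log |k|) ^ (-U)` for `b - a ≥ exp (B (log log |k|)²)`. The local factors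
are those of the primes up to `z`, for any `z` between `(log |k|) ^ B` and `|k| ^ (1/3)`. -/
def Formula (F : ℤ[X]) (U C : ℕ) (ε B : ℝ) (k : ℤ) : Prop :=
  ∀ z : ℕ, Real.log |(k : ℝ)| ^ B ≤ z → (z : ℝ) ^ 3 ≤ |(k : ℝ)| → 0 < S F k z ∧
    ∀ a b : ℤ, a < b → (∀ m ∈ Ioc a b, 2 ≤ F.eval m + k ∧ ((F.eval m + k : ℤ) : ℝ) ≤
        ((b : ℝ) - a) * |(k : ℝ)| ^ (1 - 1 / (F.natDegree : ℝ)) * Real.log |(k : ℝ)| ^ C) →
      (Real.log |(k : ℝ)| ^ B ≤ (b : ℝ) - a →
        |(P F k a b : ℝ) - S F k z * M F k a b| ≤ ε * (S F k z * M F k a b)) ∧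
      (Real.exp (B * Real.log (Real.log |(k : ℝ)|) ^ 2) ≤ (b : ℝ) - a →
        |(P F k a b : ℝ) - S F k z * M F k a b| ≤ (S F k z * M F k a b) / Real.log |(k : ℝ)| ^ U)

/-- **Theorem.** Let `ψ` tend to infinity. There is a set `E` of natural numbers such that: (1) for every integer polynomial
`F` of degree at least `2`, all `U`, `C` and `ε > 0`, for all integers `k` with `|k|` large and not in `E` for which `F + k`
has no fixed prime divisor the formula holds with `B = ψ(|k|)`; (2) for every composition `F = f_1 ∘ ⋯ ∘ f_r` of functions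
dominated by the largest prime factor, every `G` with steps `≥ a > 0` and growth at most `v`, all `W`, `U` and large `N`, for
all `m ≤ N` but `N / (log N) ^ U` NO `n` with `|n - G (F m)| ≤ (1 + log F(m)) ^ W` is in `E`; (3) let `W_n` be sets in a
measure space with `μ (W_n) ≤ C (1 + log n) ^ c / n`, then for almost every `ω` only finitely many `n ∈ E` have `ω ∈ W_n`;
(4) let `T` be a metric space with a measure such that closed balls of radius `r` have measure at most `C₀ r ^ m`, `m > 0`,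
and `φ : ℕ → T` any map; for almost every `ξ` and all `A` only finitely many `n ∈ E` have
`dist (φ n) ξ ≤ (1 + log n) ^ A n ^ (-1 / m)`. (5) Examples of `f_i` and `G`. -/
theorem result (ψ : ℕ → ℝ) (hψ : Tendsto ψ atTop atTop) : ∃ E : Set ℕ,
    (∀ F : ℤ[X], 2 ≤ F.natDegree → ∀ (U C : ℕ) (ε : ℝ), 0 < ε → ∃ n₀ : ℕ, ∀ k : ℤ, n₀ ≤ k.natAbs → k.natAbs ∉ E →
      (∀ p : ℕ, p.Prime → ∃ m : ℤ, ¬ (p : ℤ) ∣ F.eval m + k) → Formula F U C ε (ψ k.natAbs) k) ∧
    (∀ fs : List (ℕ → ℕ), (∀ f ∈ fs, PD f) → ∀ G : ℕ → ℝ, Expanding G 1 → ∀ W U : ℕ, ∃ N₀ : ℕ, ∀ N : ℕ, N₀ ≤ N →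
      ({m : ℕ | 1 ≤ m ∧ m ≤ N ∧ ∃ n ∈ E, |(n : ℝ) - G (comp fs m)| ≤ (1 + Real.log (comp fs m)) ^ W}.ncard : ℝ) ≤
        N / Real.log N ^ U) ∧
    (∀ (Ω : Type) [MeasurableSpace Ω] (μ : Measure Ω) (W : ℕ → Set Ω) (C c : ℝ),
      (∀ n : ℕ, 1 ≤ n → μ (W n) ≤ ENNReal.ofReal (C * ((1 + Real.log n) ^ c / n))) →
      ∀ᵐ ω ∂μ, {n | n ∈ E ∧ ω ∈ W n}.Finite) ∧
    (∀ (T : Type) [MetricSpace T] [MeasurableSpace T] (μ : Measure T) (C₀ m : ℝ), 0 < m →
      (∀ (x : T) (r : ℝ), 0 < r → μ (Metric.closedBall x r) ≤ ENNReal.ofReal (C₀ * r ^ m)) →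
      ∀ φ : ℕ → T, ∀ᵐ ξ ∂μ, ∀ A : ℝ,
        {n : ℕ | n ∈ E ∧ dist (φ n) ξ ≤ (1 + Real.log n) ^ A * (n : ℝ) ^ (-(1 / m))}.Finite) ∧
    (∀ f : ℕ → ℕ, (∀ a b : ℕ, Nat.Coprime a b → f (a * b) = f a + f b) →
      (∃ C : ℕ, ∀ q j : ℕ, q.Prime → 1 ≤ j → f (q ^ j) ≤ C * q ^ j) →
      (∃ P : ℕ, ∀ p q : ℕ, p.Prime → q.Prime → P ≤ p → P ≤ q → f p = f q → p = q) → PD f) ∧
    (PD (fun n => n.primeFactors.sup id) ∧ PD (fun n => sInf {k : ℕ | n ∣ k.factorial})) ∧
    ∀ α : ℝ, 0 < α → Expanding (fun v => α * (v : ℝ) ^ (1 : ℝ)) 1 := by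
  classical
  obtain ⟨E, h1, h2⟩ := Pool.Agent.Zk38.Cub.one_set ψ hψ
  have h1' := Pool.Agent.Zk38.Cub.real_of_nat h1
  have hS : ∀ b : ℝ, 0 < b → ∃ C : ℝ, ∀ X : ℝ, 1 ≤ X → {t : ℕ | t ∈ E ∧ (t : ℝ) ≤ X}.Finite ∧
      ({t : ℕ | t ∈ E ∧ (t : ℝ) ≤ X}.ncard : ℝ) ≤ C * X * (1 + Real.log X) ^ (-b) := fun b hb =>
    Pool.Agent.R482.ST.log_count E b hb (by
      obtain ⟨X₀, hX₀⟩ := h1' b
      refine ⟨X₀, fun X hX => le_trans (le_of_eq ?_) (hX₀ X hX)⟩
      congr!)
  refine ⟨E, fun F hF U C ε hε => h2 F hF U C ε hε, fun fs hfs G hG W U => log_windows (logThin_of (fun B => by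
      obtain ⟨X₀, hX₀⟩ := h1' B
      refine ⟨X₀, fun X hX => le_trans (le_of_eq ?_) (hX₀ X hX)⟩
      congr!)) fs hfs hG W U, fun Ω _ μ W C c hW => Pool.Agent.R770.LG.ae_finite E hS μ W C c hW,
    fun T _ _ μ C₀ m hm hμ φ => Pool.Agent.R770.LG.ae_near E hS μ hm hμ φ,
    fun f a1 a2 a3 => pd_additive a1 a2 a3, ⟨pd_largest, pd_kempner⟩, fun α hα => expanding_pow hα le_rfl⟩

end Pool.Agent.Results.MP_4d57ea_nt.ThinSetsOfShifts
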